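import Pool.Agent.PFC.StmtsB5a

/-! Rows QMT and SPV of block B5a of squad PFC. -/

set_option autoImplicit false

open scoped BigOperators

noncomputable section

namespace Pool.Agent.PFC.B5a

theorem qmt : QmtStmt := by
  intro F V A B _ _ _ _ _ _ _ _ α Q q n π hq hl
  classical
  let s : B → Cz F α Q := Function.surjInv hq.sur
  have hs : ∀ b, q (s b) = b := fun b => Function.surjInv_eq hq.sur b
  have hker : ∀ a a' : Cz F α Q, q a = q a' → π a = π a' := by
    intro a a' h
    have h0 : q (a - a') = 0 := by rw [map_sub, h, sub_self]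
    have h1 := hl.bk (a - a') ((hq.ker _).1 h0)
    rw [map_sub] at h1
    exact sub_eq_zero.1 h1
  let π' : B →ₐ[F] Matrix (Fin n) (Fin n) F :=
    { toFun := fun b => π (s b)
      map_one' := by
        rw [hker (s 1) 1 (by rw [hs, map_one]), map_one]
      map_mul' := by
        intro x y
        rw [hker (s (x * y)) (s x * s y) (by rw [hs, map_mul, hs, hs]), map_mul]
      map_zero' := by
        rw [hker (s 0) 0 (by rw [hs, map_zero]), map_zero]
      map_add' := by
        intro x y
        rw [hker (s (x + y)) (s x + s y) (by rw [hs, map_add, hs, hs]), map_add]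
      commutes' := by
        intro r
        rw [hker (s (algebraMap F B r)) (algebraMap F _ r) (by rw [hs, AlgHom.commutes]),
          AlgHom.commutes] }
  have hπ : ∀ a, π' (q a) = π a := fun a => hker _ _ (hs (q a))
  refine ⟨π', hπ, ?_, ?_, ?_⟩
  · intro x
    obtain ⟨a, ha⟩ := hl.sur x
    exact ⟨q a, by rw [hπ, ha]⟩
  · exact Module.Finite.of_surjective q.toLinearMap hq.sur
  · intro b hb
    obtain ⟨a, rfl⟩ := hq.sur b
    rw [hπ] at hb
    obtain ⟨N, hN⟩ := hl.nil a hb
    refine ⟨N, ?_⟩
    rw [← map_pow]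
    apply (hq.ker _).2
    rw [SubmonoidClass.coe_pow]
    exact hN

theorem spv : SpvStmt := by
  intro hfvt homz htrs hbki hfdb hcug hcas huns hqfr halv ℓ _ F V B _ _ _ _ _ _ _ β n π hV hB
  classical
  have := hB.fin
  obtain ⟨lam, hlam⟩ := hB.frm
  have hsum : (∑ᶠ w : (⊤ : Subgroup V), β w) = ∑ u, β u := by
    rw [finsum_eq_sum_of_fintype]
    exact (Subgroup.topEquiv (G := V)).toEquiv.sum_comp (fun u => β u)
  obtain ⟨c', hc'⟩ := hcug hfvt ℓ F V B β lam ⊤ hlam.sym inferInstance
    (by
      intro h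
      obtain ⟨u, hu⟩ := exists_ne (1 : V)
      have h1 : u ∈ (⊤ : Subgroup V) := Subgroup.mem_top u
      rw [h, Subgroup.mem_bot] at h1
      exact hu h1)
    (hV.to_subgroup ⊤) (fun a _ b _ => mul_comm a b)
    (fun t ht => absurd (Subgroup.mem_top t) ht)
    (by rw [hsum]; exact hlam.nz)
  obtain ⟨q, hq1, hq2, Ω, _, _, b, c, hqf⟩ := hqfr ℓ F V B β lam c' hV hlam hc' hB.ps hB.top
  obtain ⟨al, hal, hal2⟩ := halv homz htrs F V B β lam q Ω b c hlam hqf
  obtain ⟨m, d, d', hd, -⟩ := hfdb F B lam hlam.sym hlam.nd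
  have hcsm := hcas F V B β lam c' al m d d' hlam.sym hlam.nd hc'
    (fun x => by rw [hal, hq1]) hd
  refine huns hbki F V V B β β (Option (Fin m)) _ _ c' (Ee F β lam 1) hcsm ?_ hc'.lin hc'.rin
    hc'.com hB.loc ?_
  · rw [Fintype.sum_option]
    simp only [Option.elim]
    rw [mul_one, add_sub_cancel_left]
    exact hal2 m d d' hd
  · intro h1
    have h2 : ∑ u, (fun u : V => if u = 1 then (1 : F) else 0) u • β u = 1 := by
      rw [Finset.sum_eq_single (1 : V)]
      · simp
      · intro u _ hu
        simp [hu]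
      · intro h
        exact absurd (Finset.mem_univ _) h
    have h3 := hB.top.free (fun u : V => if u = 1 then (1 : F) else 0) (by rw [h2]; exact h1)
    have h4 := congrFun h3 1
    simp at h4

end Pool.Agent.PFC.B5a
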