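import Pool.Agent.PFC.StmtsB4b

/-! Row QUN of block B4b of squad PFC. -/

set_option autoImplicit false

noncomputable section

namespace Pool.Agent.PFC.H39

variable {F V : Type} [Field F] [CommGroup V]

/-- the two Brauer maps have the same values on fixed vectors with the same image -/
theorem qun_key {ℓ : ℕ} [Fact ℓ.Prime] (hQ : QkeStmt) [CharP F ℓ] [Finite V] {X Y Y' : IA F V}
    {Q : Subgroup V} {β : X.A →ₗ[F] Y.A} {s : Y.A →ₗ[F] X.A} {β' : X.A →ₗ[F] Y'.A}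
    {s' : Y'.A →ₗ[F] X.A} (hV : IsPGroup ℓ V) (h : ABr X Y Q β s) (h' : ABr X Y' Q β' s')
    {x : X.A} (hx : x ∈ Fx (cj F X.ι) Q) : β' (s (β x)) = β' x := by
  obtain ⟨h1, h2, h3⟩ := hQ ℓ F V X.A Y.A (cj F X.ι) (cj F Y.ι) Q β s hV h.toBrS
  obtain ⟨h1', h2', h3'⟩ := hQ ℓ F V X.A Y'.A (cj F X.ι) (cj F Y'.ι) Q β' s' hV h'.toBrS
  have h4 : x - s (β x) ∈ Fx (cj F X.ι) Q := Submodule.sub_mem _ hx (h1 _)
  have h5 := (h2' _ h4).2 (h3 x hx)
  rw [map_sub, sub_eq_zero] at h5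
  exact h5.symm

theorem io_fx {X : IA F V} (Q : Subgroup V) (v : V) : X.ι v ∈ Fx (cj F X.ι) Q := by
  intro h _
  show X.ι h * (X.ι v * X.ι h⁻¹) = X.ι v
  rw [← map_mul, ← map_mul, mul_comm v, mul_inv_cancel_left]

/-- QUN -/
theorem qun (hQ : QkeStmt) : QunStmt := by
  intro ℓ _ F V _ _ _ _ X Y Y' Q β s β' s' hV h h'
  obtain ⟨h1, -, -⟩ := hQ ℓ F V X.A Y.A (cj F X.ι) (cj F Y.ι) Q β s hV h.toBrS
  obtain ⟨h1', -, -⟩ := hQ ℓ F V X.A Y'.A (cj F X.ι) (cj F Y'.ι) Q β' s' hV h'.toBrS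
  have one : (1 : X.A) ∈ Fx (cj F X.ι) Q := by
    have := io_fx (X := X) Q 1
    rwa [map_one] at this
  have hβ1 : β 1 = 1 := by
    have := h.cov 1
    rwa [map_one X.ι, map_one Y.ι] at this
  have hβ1' : β' 1 = 1 := by
    have := h'.cov 1
    rwa [map_one X.ι, map_one Y'.ι] at this
  have hmul : ∀ a b : Y.A, β' (s (a * b)) = β' (s a) * β' (s b) := by
    intro a b
    have h5 : s a * s b ∈ Fx (cj F X.ι) Q := by
      intro g hg
      have ha : X.ι g * (s a * X.ι g⁻¹) = s a := h1 a g hg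
      have hb : X.ι g * (s b * X.ι g⁻¹) = s b := h1 b g hg
      show X.ι g * (s a * s b * X.ι g⁻¹) = s a * s b
      conv_rhs => rw [← ha, ← hb]
      have hg1 : X.ι g⁻¹ * X.ι g = 1 := by rw [← map_mul, inv_mul_cancel, map_one]
      have : X.ι g * (s a * X.ι g⁻¹) * (X.ι g * (s b * X.ι g⁻¹)) =
          X.ι g * (s a * ((X.ι g⁻¹ * X.ι g) * (s b * X.ι g⁻¹))) := by
        simp only [mul_assoc]
      rw [this, hg1, one_mul]
      simp only [mul_assoc]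
    have h6 := qun_key hQ hV h h' h5
    rw [h.mul _ (h1 a) _ (h1 b), h.bs, h.bs, h'.mul _ (h1 a) _ (h1 b)] at h6
    exact h6
  let e0 : Y.A →ₐ[F] Y'.A := AlgHom.ofLinearMap (β'.comp s)
    (by
      show β' (s 1) = 1
      have := qun_key hQ hV h h' one
      rwa [hβ1, hβ1'] at this)
    (fun a b => hmul a b)
  have he0 : ∀ a, e0 a = β' (s a) := fun a => rfl
  have hinv1 : ∀ a, β (s' (β' (s a))) = a := by
    intro a
    rw [qun_key hQ hV h' h (h1 a), h.bs]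
  have hinv2 : ∀ a, β' (s (β (s' a))) = a := by
    intro a
    rw [qun_key hQ hV h h' (h1' a), h'.bs]
  refine ⟨AlgEquiv.ofBijective e0 ⟨?_, ?_⟩, ?_, ?_⟩
  · intro a b hab
    rw [he0, he0] at hab
    rw [← hinv1 a, hab, hinv1]
  · intro a
    exact ⟨β (s' a), hinv2 a⟩
  · intro v
    rw [AlgEquiv.ofBijective_apply, he0, ← h.cov v, qun_key hQ hV h h' (io_fx Q v), h'.cov]
  · intro x hx
    rw [AlgEquiv.ofBijective_apply, he0, qun_key hQ hV h h' hx]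

end Pool.Agent.PFC.H39
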